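import Pool.Agent.H487R3.Cau.Stmts

/-!
# Expansion in the adapted Haar basis and Schur's test
-/

set_option autoImplicit false

open Finset

namespace Pool.Agent.H791R3.Cau

open Pool.Agent.H487R3.Cau

/-- The difference of `q` over the dyadic interval `(n, i)`. -/
noncomputable def D (q : ℝ → ℂ) (n i : ℕ) : ℂ :=
  q (((i : ℝ) + 1) / 2 ^ n) - q ((i : ℝ) / 2 ^ n)

theorem D_split (q : ℝ → ℂ) (n i : ℕ) : D q n i = D q (n + 1) (2 * i) + D q (n + 1) (2 * i + 1) := by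
  unfold D
  have h1 : ((i : ℝ)) / 2 ^ n = (((2 * i : ℕ) : ℝ)) / 2 ^ (n + 1) := by
    push_cast; field_simp; ring
  have h2 : ((i : ℝ) + 1) / 2 ^ n = (((2 * i + 1 : ℕ) : ℝ) + 1) / 2 ^ (n + 1) := by
    push_cast; field_simp; ring
  have h3 : (((2 * i + 1 : ℕ) : ℝ)) / 2 ^ (n + 1) = ((((2 * i : ℕ) : ℝ)) + 1) / 2 ^ (n + 1) := by
    push_cast; ring
  rw [h1, h2, h3]
  ring

theorem bt_eq (a : ℝ → ℂ) (n i : ℕ) : bt a n i = D (G a) n i := rfl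

theorem Wd_eq (a : ℝ → ℂ) (q : ℝ → ℂ) (n i : ℕ) :
    Wd a q n i = D q (n + 1) (2 * i) / bt a (n + 1) (2 * i) -
      D q (n + 1) (2 * i + 1) / bt a (n + 1) (2 * i + 1) := by
  unfold Wd W bt D
  have h1 : (i : ℝ) / 2 ^ n = (((2 * i : ℕ) : ℝ)) / 2 ^ (n + 1) := by
    push_cast; field_simp; ring
  have h2 : (i : ℝ) / 2 ^ n + 1 / 2 ^ (n + 1) = (((2 * i : ℕ) : ℝ) + 1) / 2 ^ (n + 1) := by
    push_cast; field_simp; ring
  have h3 : (i : ℝ) / 2 ^ n + 2 * (1 / 2 ^ (n + 1)) = (((2 * i + 1 : ℕ) : ℝ) + 1) / 2 ^ (n + 1) := by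
    push_cast; field_simp; ring
  have h4 : (((2 * i + 1 : ℕ) : ℝ)) / 2 ^ (n + 1) = ((((2 * i : ℕ) : ℝ)) + 1) / 2 ^ (n + 1) := by
    push_cast; ring
  rw [h2, h3, h1, h4]

theorem bt_near {a : ℝ → ℂ} (ha : LipschitzWith (1 / 10) a) (n i : ℕ) :
    ‖bt a n i - ((2 : ℂ) ^ n)⁻¹‖ ≤ ((2 : ℝ) ^ n)⁻¹ / 10 := by
  have h2 : (0 : ℝ) < 2 ^ n := by positivity
  have e : bt a n i - ((2 : ℂ) ^ n)⁻¹ = a (((i : ℝ) + 1) / 2 ^ n) - a ((i : ℝ) / 2 ^ n) := by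
    unfold bt G
    have h3 : (2 : ℂ) ^ n ≠ 0 := pow_ne_zero _ two_ne_zero
    push_cast
    field_simp
    ring
  rw [e]
  have := ha.dist_le_mul (((i : ℝ) + 1) / 2 ^ n) ((i : ℝ) / 2 ^ n)
  rw [dist_eq_norm, dist_eq_norm] at this
  have h4 : ((i : ℝ) + 1) / 2 ^ n - (i : ℝ) / 2 ^ n = ((2 : ℝ) ^ n)⁻¹ := by
    field_simp; ring
  rw [h4, Real.norm_of_nonneg (by positivity)] at this
  refine this.trans (le_of_eq ?_)
  push_cast
  ring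

theorem norm_pow_inv (n : ℕ) : ‖((2 : ℂ) ^ n)⁻¹‖ = ((2 : ℝ) ^ n)⁻¹ := by
  rw [norm_inv, norm_pow]
  norm_num

theorem bt_lower {a : ℝ → ℂ} (ha : LipschitzWith (1 / 10) a) (n i : ℕ) :
    ((2 : ℝ) ^ n)⁻¹ * (9 / 10) ≤ ‖bt a n i‖ := by
  have h1 := bt_near ha n i
  have h2 := norm_pow_inv n
  have h3 : ‖((2 : ℂ) ^ n)⁻¹‖ ≤ ‖bt a n i‖ + ‖bt a n i - ((2 : ℂ) ^ n)⁻¹‖ := by
    have := norm_sub_le (bt a n i) (bt a n i - ((2 : ℂ) ^ n)⁻¹)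
    rwa [sub_sub_cancel] at this
  rw [h2] at h3
  linarith

theorem bt_upper {a : ℝ → ℂ} (ha : LipschitzWith (1 / 10) a) (n i : ℕ) :
    ‖bt a n i‖ ≤ ((2 : ℝ) ^ n)⁻¹ * (11 / 10) := by
  have h1 := bt_near ha n i
  have h2 := norm_pow_inv n
  have h3 : ‖bt a n i‖ ≤ ‖((2 : ℂ) ^ n)⁻¹‖ + ‖bt a n i - ((2 : ℂ) ^ n)⁻¹‖ := by
    have := norm_add_le ((2 : ℂ) ^ n)⁻¹ (bt a n i - ((2 : ℂ) ^ n)⁻¹)
    rwa [add_sub_cancel] at this
  rw [h2] at h3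
  linarith

theorem bt_ne {a : ℝ → ℂ} (ha : LipschitzWith (1 / 10) a) (n i : ℕ) : bt a n i ≠ 0 := by
  intro h
  have := bt_lower ha n i
  rw [h, norm_zero] at this
  have h2 : (0 : ℝ) < ((2 : ℝ) ^ n)⁻¹ := by positivity
  linarith

theorem sum_range_two_mul {M : Type*} [AddCommMonoid M] (h : ℕ → M) (n : ℕ) :
    ∑ i ∈ range (2 * n), h i = ∑ i ∈ range n, (h (2 * i) + h (2 * i + 1)) := by
  induction n with
  | zero => simp
  | succ n ih =>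
    rw [Nat.mul_succ, sum_range_succ, sum_range_succ, ih, sum_range_succ, add_assoc]

/-- Quotients. -/
noncomputable def FF (a : ℝ → ℂ) (S : ℕ → ℕ → ℂ) (n i : ℕ) : ℂ := S n i / bt a n i

/-- Coefficients. -/
noncomputable def cc (a : ℝ → ℂ) (S : ℕ → ℕ → ℂ) (n i : ℕ) : ℂ :=
  (FF a S (n + 1) (2 * i) - FF a S (n + 1) (2 * i + 1)) *
    (bt a (n + 1) (2 * i) * bt a (n + 1) (2 * i + 1)) / bt a n i

theorem tele_step {a : ℝ → ℂ} (ha : LipschitzWith (1 / 10) a) (S : ℕ → ℕ → ℂ) (q : ℝ → ℂ)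
    (n i : ℕ) (hS : S n i = S (n + 1) (2 * i) + S (n + 1) (2 * i + 1)) :
    FF a S (n + 1) (2 * i) * D q (n + 1) (2 * i) +
      FF a S (n + 1) (2 * i + 1) * D q (n + 1) (2 * i + 1) =
    FF a S n i * D q n i + cc a S n i * Wd a q n i := by
  rw [Wd_eq, D_split q n i]
  unfold cc FF
  rw [hS]
  have e : bt a n i = bt a (n + 1) (2 * i) + bt a (n + 1) (2 * i + 1) := D_split (G a) n i
  have h0 := bt_ne ha n i
  have h1 := bt_ne ha (n + 1) (2 * i)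
  have h2 := bt_ne ha (n + 1) (2 * i + 1)
  rw [e] at h0 ⊢
  field_simp
  ring

theorem tele {a : ℝ → ℂ} (ha : LipschitzWith (1 / 10) a) (S : ℕ → ℕ → ℂ) (q : ℝ → ℂ) (N : ℕ)
    (hS : ∀ n i, n < N → S n i = S (n + 1) (2 * i) + S (n + 1) (2 * i + 1)) (M : ℕ) (hM : M ≤ N) :
    ∑ i ∈ range (2 ^ M), FF a S M i * D q M i =
      FF a S 0 0 * D q 0 0 + ∑ n ∈ range M, ∑ i ∈ range (2 ^ n), cc a S n i * Wd a q n i := by
  induction M with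
  | zero => simp
  | succ M ih =>
    rw [pow_succ, mul_comm, sum_range_two_mul, sum_range_succ, ← add_assoc, ← ih (by omega),
      ← sum_add_distrib]
    exact sum_congr rfl fun i _ => tele_step ha S q M i (hS M i (by omega))

/-- Sums over the cells of level `N` in the interval `(n, i)`. -/
noncomputable def SS (a : ℝ → ℂ) (f : ℕ → ℂ) (N n i : ℕ) : ℂ :=
  ∑ k ∈ range (2 ^ (N - n)), f (i * 2 ^ (N - n) + k) * bt a N (i * 2 ^ (N - n) + k)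

theorem SS_split (a : ℝ → ℂ) (f : ℕ → ℂ) (N n i : ℕ) (h : n < N) :
    SS a f N n i = SS a f N (n + 1) (2 * i) + SS a f N (n + 1) (2 * i + 1) := by
  unfold SS
  have e : N - n = (N - (n + 1)) + 1 := by omega
  rw [e, pow_succ, mul_two, sum_range_add]
  congr 1
  · refine sum_congr rfl fun k _ => ?_
    have : i * (2 ^ (N - (n + 1)) + 2 ^ (N - (n + 1))) + k = 2 * i * 2 ^ (N - (n + 1)) + k := by ring
    rw [this]
  · refine sum_congr rfl fun k _ => ?_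
    have : i * (2 ^ (N - (n + 1)) + 2 ^ (N - (n + 1))) + (2 ^ (N - (n + 1)) + k) =
      (2 * i + 1) * 2 ^ (N - (n + 1)) + k := by ring
    rw [this]

theorem SS_top (a : ℝ → ℂ) (f : ℕ → ℂ) (N i : ℕ) : SS a f N N i = f i * bt a N i := by
  unfold SS
  simp

theorem SS_zero (a : ℝ → ℂ) (f : ℕ → ℂ) (N : ℕ) :
    SS a f N 0 0 = ∑ k ∈ range (2 ^ N), f k * bt a N k := by
  unfold SS
  simp

theorem FF_top {a : ℝ → ℂ} (ha : LipschitzWith (1 / 10) a) (f : ℕ → ℂ) (N i : ℕ) :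
    FF a (SS a f N) N i = f i := by
  unfold FF
  rw [SS_top, mul_div_assoc, div_self (bt_ne ha N i), mul_one]

/-- The coefficients of `f`. -/
noncomputable def cf (a : ℝ → ℂ) (f : ℕ → ℂ) (N n i : ℕ) : ℂ := cc a (SS a f N) n i

/-- The mean of `f`. -/
noncomputable def mf (a : ℝ → ℂ) (f : ℕ → ℂ) (N : ℕ) : ℂ := FF a (SS a f N) 0 0

theorem expand {a : ℝ → ℂ} (ha : LipschitzWith (1 / 10) a) (f : ℕ → ℂ) (q : ℝ → ℂ) (N : ℕ) :
    ∑ i ∈ range (2 ^ N), f i * D q N i =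
      mf a f N * (q 1 - q 0) + ∑ n ∈ range N, ∑ i ∈ range (2 ^ n), cf a f N n i * Wd a q n i := by
  have h := tele ha (SS a f N) q N (fun n i hn => SS_split a f N n i hn) N le_rfl
  have e : D q 0 0 = q 1 - q 0 := by
    unfold D
    norm_num
  rw [e] at h
  have e2 : ∑ i ∈ range (2 ^ N), f i * D q N i =
      ∑ i ∈ range (2 ^ N), FF a (SS a f N) N i * D q N i :=
    sum_congr rfl fun i _ => by rw [FF_top ha f N i]
  rw [e2]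
  exact h

/-! ## The bilinear expansion -/

/-- The index set of the dyadic intervals of level less than `N`. -/
def idx (N : ℕ) : Finset (Σ _ : ℕ, ℕ) := (range N).sigma fun n => range (2 ^ n)

theorem sum_idx {M : Type*} [AddCommMonoid M] (N : ℕ) (F : ℕ → ℕ → M) :
    ∑ n ∈ range N, ∑ i ∈ range (2 ^ n), F n i = ∑ p ∈ idx N, F p.1 p.2 :=
  Finset.sum_sigma' _ _ _

theorem mem_idx {N : ℕ} {p : Σ _ : ℕ, ℕ} : p ∈ idx N ↔ p.1 < N ∧ p.2 < 2 ^ p.1 := by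
  unfold idx
  simp

theorem Wd_add (a : ℝ → ℂ) (u v : ℝ → ℂ) (n i : ℕ) :
    Wd a (fun x => u x + v x) n i = Wd a u n i + Wd a v n i := by
  unfold Wd W
  ring

theorem Wd_sub (a : ℝ → ℂ) (u v : ℝ → ℂ) (n i : ℕ) :
    Wd a (fun x => u x - v x) n i = Wd a u n i - Wd a v n i := by
  unfold Wd W
  ring

theorem Wd_mul (a : ℝ → ℂ) (c : ℂ) (u : ℝ → ℂ) (n i : ℕ) :
    Wd a (fun x => c * u x) n i = c * Wd a u n i := by
  unfold Wd W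
  ring

theorem Wd_sum {ι : Type*} (a : ℝ → ℂ) (s : Finset ι) (c : ι → ℂ) (u : ι → ℝ → ℂ) (n i : ℕ) :
    Wd a (fun x => ∑ p ∈ s, c p * u p x) n i = ∑ p ∈ s, c p * Wd a (u p) n i := by
  classical
  induction s using Finset.induction_on with
  | empty =>
    unfold Wd W
    simp
  | insert p s hp ih =>
    rw [sum_insert hp, ← ih, ← Wd_mul, ← Wd_add]
    congr 1
    funext x
    rw [sum_insert hp]

theorem bilin {a : ℝ → ℂ} (ha : LipschitzWith (1 / 10) a) (f g : ℕ → ℂ) (Q : ℝ → ℝ → ℂ) (N : ℕ) :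
    ∑ k ∈ range (2 ^ N), ∑ l ∈ range (2 ^ N), f k * g l * Rc Q N k l =
      mf a f N * mf a g N * (Q 1 1 - Q 0 1 - Q 1 0 + Q 0 0) +
      mf a f N * ∑ p ∈ idx N, cf a g N p.1 p.2 * Wd a (fun y => Q 1 y - Q 0 y) p.1 p.2 +
      mf a g N * ∑ p ∈ idx N, cf a f N p.1 p.2 * Wd a (fun x => Q x 1 - Q x 0) p.1 p.2 +
      ∑ p ∈ idx N, ∑ r ∈ idx N, cf a f N p.1 p.2 * cf a g N r.1 r.2 *
        Wd a (fun x => Wd a (fun y => Q x y) r.1 r.2) p.1 p.2 := by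
  set R : ℝ → ℂ := fun x => ∑ l ∈ range (2 ^ N), g l * D (Q x) N l with hR
  have e1 : ∑ k ∈ range (2 ^ N), ∑ l ∈ range (2 ^ N), f k * g l * Rc Q N k l =
      ∑ k ∈ range (2 ^ N), f k * D R N k := by
    refine sum_congr rfl fun k _ => ?_
    unfold D
    rw [hR]
    simp only
    rw [← sum_sub_distrib, mul_sum]
    refine sum_congr rfl fun l _ => ?_
    unfold Rc D
    ring
  have e2 : R = fun x => mf a g N * (Q x 1 - Q x 0) +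
      ∑ p ∈ idx N, cf a g N p.1 p.2 * Wd a (fun y => Q x y) p.1 p.2 := by
    funext x
    rw [hR]
    simp only
    rw [expand ha g (Q x) N, sum_idx N (fun n i => cf a g N n i * Wd a (Q x) n i)]
  rw [e1, expand ha f R N, sum_idx N (fun n i => cf a f N n i * Wd a R n i)]
  have e3 : ∀ n i, Wd a R n i = mf a g N * Wd a (fun x => Q x 1 - Q x 0) n i +
      ∑ r ∈ idx N, cf a g N r.1 r.2 * Wd a (fun x => Wd a (fun y => Q x y) r.1 r.2) n i := by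
    intro n i
    rw [e2, Wd_add, Wd_mul, Wd_sum a (idx N) (fun r => cf a g N r.1 r.2)
      (fun r x => Wd a (fun y => Q x y) r.1 r.2)]
  have e4 : ∑ p ∈ idx N, cf a f N p.1 p.2 * Wd a R p.1 p.2 =
      mf a g N * ∑ p ∈ idx N, cf a f N p.1 p.2 * Wd a (fun x => Q x 1 - Q x 0) p.1 p.2 +
      ∑ p ∈ idx N, ∑ r ∈ idx N, cf a f N p.1 p.2 * cf a g N r.1 r.2 *
        Wd a (fun x => Wd a (fun y => Q x y) r.1 r.2) p.1 p.2 := by
    rw [mul_sum, ← sum_add_distrib]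
    refine sum_congr rfl fun p _ => ?_
    rw [e3, mul_add, mul_sum]
    congr 1
    · ring
    · exact sum_congr rfl fun r _ => by ring
  have e5 : R 1 - R 0 = mf a g N * (Q 1 1 - Q 0 1 - Q 1 0 + Q 0 0) +
      ∑ p ∈ idx N, cf a g N p.1 p.2 * Wd a (fun y => Q 1 y - Q 0 y) p.1 p.2 := by
    rw [e2]
    simp only
    have : ∑ p ∈ idx N, cf a g N p.1 p.2 * Wd a (fun y => Q 1 y - Q 0 y) p.1 p.2 =
        ∑ p ∈ idx N, cf a g N p.1 p.2 * Wd a (fun y => Q 1 y) p.1 p.2 -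
        ∑ p ∈ idx N, cf a g N p.1 p.2 * Wd a (fun y => Q 0 y) p.1 p.2 := by
      rw [← sum_sub_distrib]
      refine sum_congr rfl fun p _ => ?_
      rw [Wd_sub]
      ring
    rw [this]
    ring
  rw [e4, e5]
  ring

/-! ## Inequalities -/

theorem cs {ι : Type*} (s : Finset ι) (w : ι → ℝ) (hw : ∀ p, 0 < w p) (c d : ι → ℂ) :
    ‖∑ p ∈ s, c p * d p‖ ≤
      √(∑ p ∈ s, w p * ‖c p‖ ^ 2) * √(∑ p ∈ s, (w p)⁻¹ * ‖d p‖ ^ 2) := by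
  have h1 : ‖∑ p ∈ s, c p * d p‖ ≤ ∑ p ∈ s, (√(w p) * ‖c p‖) * (√((w p)⁻¹) * ‖d p‖) := by
    refine (norm_sum_le _ _).trans (le_of_eq (sum_congr rfl fun p _ => ?_))
    have : √(w p) * √((w p)⁻¹) = 1 := by
      rw [← Real.sqrt_mul (hw p).le, mul_inv_cancel₀ (hw p).ne', Real.sqrt_one]
    rw [norm_mul]
    calc ‖c p‖ * ‖d p‖ = (√(w p) * √((w p)⁻¹)) * (‖c p‖ * ‖d p‖) := by rw [this, one_mul]
      _ = _ := by ring
  refine h1.trans ((Real.sum_mul_le_sqrt_mul_sqrt s _ _).trans (le_of_eq ?_))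
  congr 2
  · refine sum_congr rfl fun p _ => ?_
    rw [mul_pow, Real.sq_sqrt (hw p).le]
  · refine sum_congr rfl fun p _ => ?_
    rw [mul_pow, Real.sq_sqrt (inv_pos.2 (hw p)).le]

theorem schur {ι : Type*} (s : Finset ι) (A : ℝ) (hA : 0 ≤ A) (u v : ι → ℝ) (T : ι → ι → ℝ)
    (hT : ∀ p r, 0 ≤ T p r) (hr : ∀ p ∈ s, ∑ r ∈ s, T p r ≤ A) (hc : ∀ r ∈ s, ∑ p ∈ s, T p r ≤ A) :
    ∑ p ∈ s, ∑ r ∈ s, u p * v r * T p r ≤ A * √(∑ p ∈ s, u p ^ 2) * √(∑ r ∈ s, v r ^ 2) := by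
  have h1 : ∑ p ∈ s, ∑ r ∈ s, u p * v r * T p r =
      ∑ x ∈ s ×ˢ s, (u x.1 * √(T x.1 x.2)) * (v x.2 * √(T x.1 x.2)) := by
    rw [sum_product]
    refine sum_congr rfl fun p _ => sum_congr rfl fun r _ => ?_
    have := Real.mul_self_sqrt (hT p r)
    calc u p * v r * T p r = u p * v r * (√(T p r) * √(T p r)) := by rw [this]
      _ = _ := by ring
  have h2 : ∑ x ∈ s ×ˢ s, (u x.1 * √(T x.1 x.2)) ^ 2 ≤ A * ∑ p ∈ s, u p ^ 2 := by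
    rw [sum_product, mul_sum]
    refine sum_le_sum fun p hp => ?_
    have : ∑ r ∈ s, (u p * √(T p r)) ^ 2 = u p ^ 2 * ∑ r ∈ s, T p r := by
      rw [mul_sum]
      refine sum_congr rfl fun r _ => ?_
      rw [mul_pow, Real.sq_sqrt (hT p r)]
    simp only
    rw [this, mul_comm]
    exact mul_le_mul_of_nonneg_right (hr p hp) (sq_nonneg _)
  have h3 : ∑ x ∈ s ×ˢ s, (v x.2 * √(T x.1 x.2)) ^ 2 ≤ A * ∑ p ∈ s, v p ^ 2 := by
    rw [sum_product_right, mul_sum]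
    refine sum_le_sum fun r hp => ?_
    have : ∑ p ∈ s, (v r * √(T p r)) ^ 2 = v r ^ 2 * ∑ p ∈ s, T p r := by
      rw [mul_sum]
      refine sum_congr rfl fun p _ => ?_
      rw [mul_pow, Real.sq_sqrt (hT p r)]
    simp only
    rw [this, mul_comm]
    exact mul_le_mul_of_nonneg_right (hc r hp) (sq_nonneg _)
  rw [h1]
  refine (Real.sum_mul_le_sqrt_mul_sqrt _ _ _).trans ?_
  refine (mul_le_mul (Real.sqrt_le_sqrt h2) (Real.sqrt_le_sqrt h3) (Real.sqrt_nonneg _)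
    (Real.sqrt_nonneg _)).trans (le_of_eq ?_)
  rw [Real.sqrt_mul hA, Real.sqrt_mul hA]
  have := Real.mul_self_sqrt hA
  calc √A * √(∑ p ∈ s, u p ^ 2) * (√A * √(∑ p ∈ s, v p ^ 2)) =
      (√A * √A) * √(∑ p ∈ s, u p ^ 2) * √(∑ p ∈ s, v p ^ 2) := by ring
    _ = _ := by rw [this]

/-- The norm of `f`. -/
noncomputable def X (f : ℕ → ℂ) (N : ℕ) : ℝ := √(∑ k ∈ range (2 ^ N), ((2 : ℝ) ^ N)⁻¹ * ‖f k‖ ^ 2)

theorem X_nonneg (f : ℕ → ℂ) (N : ℕ) : 0 ≤ X f N := Real.sqrt_nonneg _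

theorem mf_le {a : ℝ → ℂ} (ha : LipschitzWith (1 / 10) a) (f : ℕ → ℂ) (N : ℕ) :
    ‖mf a f N‖ ≤ 2 * X f N := by
  have h2 : (0 : ℝ) < 2 ^ N := by positivity
  have h1 : ‖SS a f N 0 0‖ ≤ X f N * (11 / 10) := by
    rw [SS_zero]
    have e1 : ‖∑ k ∈ range (2 ^ N), f k * bt a N k‖ ≤
        (∑ k ∈ range (2 ^ N), (√(((2 : ℝ) ^ N)⁻¹) * ‖f k‖) * √(((2 : ℝ) ^ N)⁻¹)) * (11 / 10) := by
      refine (norm_sum_le _ _).trans ?_
      rw [sum_mul]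
      refine sum_le_sum fun k _ => ?_
      rw [norm_mul]
      have h3 := bt_upper ha N k
      have h4 : √(((2 : ℝ) ^ N)⁻¹) * √(((2 : ℝ) ^ N)⁻¹) = ((2 : ℝ) ^ N)⁻¹ :=
        Real.mul_self_sqrt (by positivity)
      calc ‖f k‖ * ‖bt a N k‖ ≤ ‖f k‖ * (((2 : ℝ) ^ N)⁻¹ * (11 / 10)) :=
            mul_le_mul_of_nonneg_left h3 (norm_nonneg _)
        _ = ‖f k‖ * ((√(((2 : ℝ) ^ N)⁻¹) * √(((2 : ℝ) ^ N)⁻¹)) * (11 / 10)) := by rw [h4]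
        _ = _ := by ring
    refine e1.trans (mul_le_mul_of_nonneg_right ?_ (by norm_num))
    refine (Real.sum_mul_le_sqrt_mul_sqrt _ _ _).trans (le_of_eq ?_)
    have e2 : ∑ k ∈ range (2 ^ N), √(((2 : ℝ) ^ N)⁻¹) ^ 2 = 1 := by
      rw [Real.sq_sqrt (by positivity), sum_const, card_range, nsmul_eq_mul]
      push_cast
      exact mul_inv_cancel₀ h2.ne'
    have e3 : ∑ k ∈ range (2 ^ N), (√(((2 : ℝ) ^ N)⁻¹) * ‖f k‖) ^ 2 =
        ∑ k ∈ range (2 ^ N), ((2 : ℝ) ^ N)⁻¹ * ‖f k‖ ^ 2 :=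
      sum_congr rfl fun k _ => by rw [mul_pow, Real.sq_sqrt (by positivity)]
    rw [e2, e3, Real.sqrt_one, mul_one]
    rfl
  have h3 : 9 / 10 ≤ ‖bt a 0 0‖ := by
    have := bt_lower ha 0 0
    norm_num at this
    linarith
  unfold mf FF
  rw [norm_div, div_le_iff₀ (by linarith)]
  have := X_nonneg f N
  nlinarith

theorem cf_le {a : ℝ → ℂ} (ha : LipschitzWith (1 / 10) a) (f : ℕ → ℂ) (N n i : ℕ) :
    ‖cf a f N n i‖ ≤ ((2 : ℝ) ^ n)⁻¹ * ‖SS a f N (n + 1) (2 * i) / bt a (n + 1) (2 * i) -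
          SS a f N (n + 1) (2 * i + 1) / bt a (n + 1) (2 * i + 1)‖ := by
  unfold cf cc FF
  set z := SS a f N (n + 1) (2 * i) / bt a (n + 1) (2 * i) -
          SS a f N (n + 1) (2 * i + 1) / bt a (n + 1) (2 * i + 1) with hz
  have h1 := bt_upper ha (n + 1) (2 * i)
  have h2 := bt_upper ha (n + 1) (2 * i + 1)
  have h3 := bt_lower ha n i
  have e : ((2 : ℝ) ^ (n + 1))⁻¹ = ((2 : ℝ) ^ n)⁻¹ / 2 := by
    rw [pow_succ, mul_inv]
    ring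
  rw [e] at h1 h2
  set t := ((2 : ℝ) ^ n)⁻¹ with ht
  have ht0 : 0 < t := by positivity
  rw [norm_div, norm_mul, norm_mul, div_le_iff₀ (by nlinarith)]
  have h4 : ‖bt a (n + 1) (2 * i)‖ * ‖bt a (n + 1) (2 * i + 1)‖ ≤
      (t / 2 * (11 / 10)) * (t / 2 * (11 / 10)) :=
    mul_le_mul h1 h2 (norm_nonneg _) (by positivity)
  have h5 : (t / 2 * (11 / 10)) * (t / 2 * (11 / 10)) ≤ t * ‖bt a n i‖ := by
    calc (t / 2 * (11 / 10)) * (t / 2 * (11 / 10)) ≤ t * (t * (9 / 10)) := by nlinarith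
      _ ≤ t * ‖bt a n i‖ := mul_le_mul_of_nonneg_left h3 ht0.le
  calc ‖z‖ * (‖bt a (n + 1) (2 * i)‖ * ‖bt a (n + 1) (2 * i + 1)‖) ≤ ‖z‖ * (t * ‖bt a n i‖) :=
        mul_le_mul_of_nonneg_left (h4.trans h5) (norm_nonneg _)
    _ = t * ‖z‖ * ‖bt a n i‖ := by ring

theorem bessel {C : ℝ} (hC0 : 0 < C)
    (hC : ∀ (β S : ℕ → ℕ → ℂ) (N : ℕ),
    (∀ n i, β n i = β (n + 1) (2 * i) + β (n + 1) (2 * i + 1)) →
    (∀ n i, ‖β n i - ((2 : ℂ) ^ n)⁻¹‖ ≤ ((2 : ℝ) ^ n)⁻¹ / 10) →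
    (∀ n i, n < N → S n i = S (n + 1) (2 * i) + S (n + 1) (2 * i + 1)) →
      ∑ n ∈ Finset.range N, ∑ i ∈ Finset.range (2 ^ n), ((2 : ℝ) ^ n)⁻¹ *
        ‖S (n + 1) (2 * i) / β (n + 1) (2 * i) -
          S (n + 1) (2 * i + 1) / β (n + 1) (2 * i + 1)‖ ^ 2 ≤
        C * ∑ i ∈ Finset.range (2 ^ N), (2 : ℝ) ^ N * ‖S N i‖ ^ 2)
    {a : ℝ → ℂ} (ha : LipschitzWith (1 / 10) a) (f : ℕ → ℂ) (N : ℕ) :
    √(∑ p ∈ idx N, (2 : ℝ) ^ p.1 * ‖cf a f N p.1 p.2‖ ^ 2) ≤ √(2 * C) * X f N := by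
  have h := hC (bt a) (SS a f N) N (fun n i => D_split (G a) n i) (fun n i => bt_near ha n i)
    (fun n i hn => SS_split a f N n i hn)
  rw [sum_idx N (fun n i => ((2 : ℝ) ^ n)⁻¹ *
        ‖SS a f N (n + 1) (2 * i) / bt a (n + 1) (2 * i) -
          SS a f N (n + 1) (2 * i + 1) / bt a (n + 1) (2 * i + 1)‖ ^ 2)] at h
  unfold X
  rw [← Real.sqrt_mul (by positivity)]
  refine Real.sqrt_le_sqrt ?_
  have h1 : ∑ p ∈ idx N, (2 : ℝ) ^ p.1 * ‖cf a f N p.1 p.2‖ ^ 2 ≤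
      ∑ p ∈ idx N, ((2 : ℝ) ^ p.1)⁻¹ *
        ‖SS a f N (p.1 + 1) (2 * p.2) / bt a (p.1 + 1) (2 * p.2) -
          SS a f N (p.1 + 1) (2 * p.2 + 1) / bt a (p.1 + 1) (2 * p.2 + 1)‖ ^ 2 := by
    refine sum_le_sum fun p _ => ?_
    have h2 : (0 : ℝ) < 2 ^ p.1 := by positivity
    have h3 := pow_le_pow_left₀ (norm_nonneg _) (cf_le ha f N p.1 p.2) 2
    calc (2 : ℝ) ^ p.1 * ‖cf a f N p.1 p.2‖ ^ 2 ≤ (2 : ℝ) ^ p.1 * _ :=
          mul_le_mul_of_nonneg_left h3 h2.le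
      _ = _ := by
        rw [mul_pow]
        field_simp
  refine h1.trans (h.trans ?_)
  rw [mul_comm (2 : ℝ) C, mul_assoc, mul_sum (range (2 ^ N)) _ (2 : ℝ)]
  refine mul_le_mul_of_nonneg_left (sum_le_sum fun i _ => ?_) hC0.le
  rw [SS_top, norm_mul]
  have h2 : (0 : ℝ) < 2 ^ N := by positivity
  have h3 := pow_le_pow_left₀ (norm_nonneg _) (bt_upper ha N i) 2
  calc (2 : ℝ) ^ N * (‖f i‖ * ‖bt a N i‖) ^ 2 = (2 : ℝ) ^ N * ‖f i‖ ^ 2 * ‖bt a N i‖ ^ 2 := by ring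
    _ ≤ (2 : ℝ) ^ N * ‖f i‖ ^ 2 * (((2 : ℝ) ^ N)⁻¹ * (11 / 10)) ^ 2 :=
        mul_le_mul_of_nonneg_left h3 (by positivity)
    _ = (121 / 100) * (((2 : ℝ) ^ N)⁻¹ * ‖f i‖ ^ 2) := by
        field_simp
        ring
    _ ≤ 2 * (((2 : ℝ) ^ N)⁻¹ * ‖f i‖ ^ 2) := by
        have : 0 ≤ ((2 : ℝ) ^ N)⁻¹ * ‖f i‖ ^ 2 := by positivity
        linarith

theorem taskSchur : TaskSchur := by
  rintro ⟨C, hC0, hC⟩ A hA
  refine ⟨4 * A + 4 * √(2 * C) * √A + A * (√(2 * C) * √(2 * C)), by positivity, ?_⟩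
  intro a ha Q N hrow hcol h0 h1 h2 f g
  rw [bilin ha f g Q N]
  have bf := bessel hC0 hC ha f N
  have bg := bessel hC0 hC ha g N
  have mfl := mf_le ha f N
  have mgl := mf_le ha g N
  have Xf := X_nonneg f N
  have Xg := X_nonneg g N
  set x := X f N with hx
  set y := X g N with hy
  set κ := √(2 * C) with hκ
  have hκ0 : 0 ≤ κ := Real.sqrt_nonneg _
  have hsA : 0 ≤ √A := Real.sqrt_nonneg _
  -- first term
  have t1 : ‖mf a f N * mf a g N * (Q 1 1 - Q 0 1 - Q 1 0 + Q 0 0)‖ ≤ 4 * A * x * y := by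
    rw [norm_mul, norm_mul]
    calc ‖mf a f N‖ * ‖mf a g N‖ * ‖Q 1 1 - Q 0 1 - Q 1 0 + Q 0 0‖ ≤ (2 * x) * (2 * y) * A :=
          mul_le_mul (mul_le_mul mfl mgl (norm_nonneg _) (by positivity)) h0 (norm_nonneg _)
            (by positivity)
      _ = _ := by ring
  have key : ∀ (F : ℕ → ℂ) (z : ℝ) (U : ℝ → ℂ), 0 ≤ z →
      √(∑ p ∈ idx N, (2 : ℝ) ^ p.1 * ‖cf a F N p.1 p.2‖ ^ 2) ≤ κ * z →
      ∑ m ∈ Finset.range N, ∑ j ∈ Finset.range (2 ^ m),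
        ((2 : ℝ) ^ m)⁻¹ * ‖Wd a U m j‖ ^ 2 ≤ A →
      ‖∑ p ∈ idx N, cf a F N p.1 p.2 * Wd a U p.1 p.2‖ ≤ κ * z * √A := by
    intro F z U hz hb hU
    rw [sum_idx N (fun m j => ((2 : ℝ) ^ m)⁻¹ * ‖Wd a U m j‖ ^ 2)] at hU
    refine (cs (idx N) (fun p => (2 : ℝ) ^ p.1) (fun p => by positivity)
      (fun p => cf a F N p.1 p.2) (fun p => Wd a U p.1 p.2)).trans ?_
    exact mul_le_mul hb (Real.sqrt_le_sqrt hU) (Real.sqrt_nonneg _) (by positivity)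
  have t2 : ‖mf a f N * ∑ p ∈ idx N, cf a g N p.1 p.2 * Wd a (fun y => Q 1 y - Q 0 y) p.1 p.2‖ ≤
      2 * κ * √A * x * y := by
    rw [norm_mul]
    calc _ ≤ (2 * x) * (κ * y * √A) :=
          mul_le_mul mfl (key g y _ Xg bg h1) (norm_nonneg _) (by positivity)
      _ = _ := by ring
  have t3 : ‖mf a g N * ∑ p ∈ idx N, cf a f N p.1 p.2 * Wd a (fun x => Q x 1 - Q x 0) p.1 p.2‖ ≤
      2 * κ * √A * x * y := by
    rw [norm_mul]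
    calc _ ≤ (2 * y) * (κ * x * √A) :=
          mul_le_mul mgl (key f x _ Xf bf h2) (norm_nonneg _) (by positivity)
      _ = _ := by ring
  have t4 : ‖∑ p ∈ idx N, ∑ r ∈ idx N, cf a f N p.1 p.2 * cf a g N r.1 r.2 *
        Wd a (fun x => Wd a (fun y => Q x y) r.1 r.2) p.1 p.2‖ ≤ A * (κ * κ) * x * y := by
    set T : (Σ _ : ℕ, ℕ) → (Σ _ : ℕ, ℕ) → ℝ := fun p r => √((2 : ℝ) ^ p.1)⁻¹ * √((2 : ℝ) ^ r.1)⁻¹ *
        ‖Wd a (fun x => Wd a (fun y => Q x y) r.1 r.2) p.1 p.2‖ with hT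
    have hsq : ∀ n : ℕ, √((2 : ℝ) ^ n) * √((2 : ℝ) ^ n)⁻¹ = 1 := by
      intro n
      have h2 : (0 : ℝ) < 2 ^ n := by positivity
      rw [← Real.sqrt_mul h2.le, mul_inv_cancel₀ h2.ne', Real.sqrt_one]
    have hT0 : ∀ p r, 0 ≤ T p r := fun p r => by
      rw [hT]
      positivity
    have hr : ∀ p ∈ idx N, ∑ r ∈ idx N, T p r ≤ A := by
      intro p hp
      rw [mem_idx] at hp
      have := hrow p.1 p.2 hp.1 hp.2
      rw [sum_idx N (fun m j => √((2 : ℝ) ^ p.1)⁻¹ * √((2 : ℝ) ^ m)⁻¹ *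
        ‖Wd a (fun x => Wd a (fun y => Q x y) m j) p.1 p.2‖)] at this
      exact this
    have hc : ∀ r ∈ idx N, ∑ p ∈ idx N, T p r ≤ A := by
      intro r hp
      rw [mem_idx] at hp
      have := hcol r.1 r.2 hp.1 hp.2
      rw [sum_idx N (fun n i => √((2 : ℝ) ^ n)⁻¹ * √((2 : ℝ) ^ r.1)⁻¹ *
        ‖Wd a (fun x => Wd a (fun y => Q x y) r.1 r.2) n i‖)] at this
      exact this
    have hS := schur (idx N) A hA.le (fun p => √((2 : ℝ) ^ p.1) * ‖cf a f N p.1 p.2‖)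
      (fun p => √((2 : ℝ) ^ p.1) * ‖cf a g N p.1 p.2‖) T hT0 hr hc
    have e1 : ∀ F : ℕ → ℂ, ∑ p ∈ idx N, (√((2 : ℝ) ^ p.1) * ‖cf a F N p.1 p.2‖) ^ 2 =
        ∑ p ∈ idx N, (2 : ℝ) ^ p.1 * ‖cf a F N p.1 p.2‖ ^ 2 := fun F =>
      sum_congr rfl fun p _ => by rw [mul_pow, Real.sq_sqrt (by positivity)]
    simp only [e1] at hS
    refine le_trans ?_ (hS.trans ?_)
    · refine (norm_sum_le _ _).trans (sum_le_sum fun p _ => (norm_sum_le _ _).trans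
        (sum_le_sum fun r _ => ?_))
      rw [norm_mul, norm_mul]
      have ep := hsq p.1
      have er := hsq r.1
      apply le_of_eq
      calc ‖cf a f N p.1 p.2‖ * ‖cf a g N r.1 r.2‖ *
            ‖Wd a (fun x => Wd a (fun y => Q x y) r.1 r.2) p.1 p.2‖ =
          (√((2 : ℝ) ^ p.1) * √((2 : ℝ) ^ p.1)⁻¹) * (√((2 : ℝ) ^ r.1) * √((2 : ℝ) ^ r.1)⁻¹) *
            (‖cf a f N p.1 p.2‖ * ‖cf a g N r.1 r.2‖ *
            ‖Wd a (fun x => Wd a (fun y => Q x y) r.1 r.2) p.1 p.2‖) := by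
            rw [ep, er, one_mul, one_mul]
        _ = _ := by
          rw [hT]
          ring
    · calc _ ≤ A * (κ * x) * (κ * y) :=
            mul_le_mul (mul_le_mul_of_nonneg_left bf hA.le) bg (Real.sqrt_nonneg _) (by positivity)
        _ = _ := by ring
  have tot := norm_add_le
    (mf a f N * mf a g N * (Q 1 1 - Q 0 1 - Q 1 0 + Q 0 0) +
      mf a f N * ∑ p ∈ idx N, cf a g N p.1 p.2 * Wd a (fun y => Q 1 y - Q 0 y) p.1 p.2 +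
      mf a g N * ∑ p ∈ idx N, cf a f N p.1 p.2 * Wd a (fun x => Q x 1 - Q x 0) p.1 p.2)
    (∑ p ∈ idx N, ∑ r ∈ idx N, cf a f N p.1 p.2 * cf a g N r.1 r.2 *
        Wd a (fun x => Wd a (fun y => Q x y) r.1 r.2) p.1 p.2)
  have tot2 := norm_add₃_le (a := mf a f N * mf a g N * (Q 1 1 - Q 0 1 - Q 1 0 + Q 0 0))
    (b := mf a f N * ∑ p ∈ idx N, cf a g N p.1 p.2 * Wd a (fun y => Q 1 y - Q 0 y) p.1 p.2)
    (c := mf a g N * ∑ p ∈ idx N, cf a f N p.1 p.2 * Wd a (fun x => Q x 1 - Q x 0) p.1 p.2)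
  have fin : (4 * A + 4 * κ * √A + A * (κ * κ)) * x * y =
      4 * A * x * y + 2 * κ * √A * x * y + 2 * κ * √A * x * y + A * (κ * κ) * x * y := by ring
  change _ ≤ (4 * A + 4 * κ * √A + A * (κ * κ)) * x * y
  rw [fin]
  linarith

end Pool.Agent.H791R3.Cau
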